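import Pool.Agent.Helper420.KdVIll.Proof

/-!
# Ill-posedness in `H^s(0,L)`, `s < -1`, of the KdV initial-boundary value problems

For the problem `u_t + u_x + u_xxx + u u_x = 0` on `(0,L)`, `𝓑_k u = h`, with `k ∈ {1,2,3,4}` and
arbitrary coefficients: high frequency wave packets `N A(x) cos(N x)` (small in `H^s`, `s < -1`)
transfer a fixed amount of mass to low frequencies during the time `L/(12 N^2)` they need to
travel a quarter of the interval.
-/

open MeasureTheory Set Filter Topology intervalIntegral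
open scoped Interval ENNReal

namespace Pool.Agent.Results.MP_14aec4_an.IllPosed

open Pool.Agent.Helper420.KdVIll

/-- **Ill-posedness in `H^s(0,L)` for every `s < -1`**, for each of the four boundary problems and
all coefficients. -/
theorem result (k : ℕ) (_hk : 1 ≤ k ∧ k ≤ 4) (c : Coeffs) (L : ℝ) (hL : 0 < L) (s : ℝ)
    (hs : s < -1) :
    ¬ LocallyWellPosed k c L s ∧
    ∃ (φ : ℕ → ℝ → ℝ) (t B : ℕ → ℝ) (c₀ : ℝ), 0 < c₀ ∧
      (∀ n, ContDiff ℝ ((⊤ : ℕ∞) : WithTop ℕ∞) (φ n)) ∧ (∀ n, tsupport (φ n) ⊆ Ioo 0 L) ∧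
      (∀ n, 0 < t n) ∧ Tendsto t atTop (𝓝 0) ∧
      Tendsto (fun n => sobNorm s L (φ n)) atTop (𝓝 0) ∧
      ∀ n T u, IsSolution k c L T (φ n) (fun _ _ => 0) u →
        (∀ τ ∈ Ico 0 T, τ ≤ t n → ∫ x in (0:ℝ)..L, u τ x ^ 2 ≤ B n) ∧
        (t n < T → ENNReal.ofReal c₀ ≤ sobNorm s L (u (t n))) :=
  ⟨not_lwp k c hL hs, illposed_sequence k c hL hs⟩

end Pool.Agent.Results.MP_14aec4_an.IllPosed
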